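import Mathlib
import Pool.Agent.H60.SM.Core
import Pool.Agent.H60.SM.Eigen
import Pool.Agent.H60.SM.Virtual

/-!
MP_e6747d_al (left-invariant syndetic submeasures on arbitrary groups).
Minimal actions with infinitely many commuting symmetries.
-/

set_option autoImplicit false
open Topology Pointwise

namespace Pool.Agent.Results.MP_e6747d_al.CommutingSymmetries

/-- `G` admits a left-invariant syndetic submeasure (the conclusion of the frozen statement). -/
def Admits (G : Type) [Group G] : Prop :=
  ∃ μ : Set G → ℝ,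
    (∀ A : Set G, 0 ≤ μ A ∧ μ A ≤ 1) ∧
    μ ∅ = 0 ∧ μ Set.univ = 1 ∧
    (∀ A B : Set G, A ⊆ B → μ A ≤ μ B) ∧
    (∀ A B : Set G, μ (A ∪ B) ≤ μ A + μ B) ∧
    (∀ (x : G) (A : Set G), μ ((fun y => x * y) '' A) = μ A) ∧
    (∀ A : Set G, μ A < 1 → ∀ ε : ℝ, 1 / (Nat.card G : ℝ) < ε →
      ∃ B ⊆ Aᶜ, μ B < ε ∧
        ∃ F : Finset G, ∀ g : G, ∃ f ∈ F, ∃ b ∈ B, g = f * b)

/-- `H` acts minimally on a nonempty compact Hausdorff space on which some infinite group acts
faithfully by homeomorphisms commuting with `H`. -/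
def SymmetricFlow (H : Type) [Group H] : Prop :=
  ∃ (X A : Type) (_ : TopologicalSpace X) (_ : CompactSpace X) (_ : T2Space X) (_ : Nonempty X)
    (_ : MulAction H X) (_ : ContinuousConstSMul H X) (_ : MulAction.IsMinimal H X)
    (_ : Group A) (_ : Infinite A) (_ : MulAction A X) (_ : ContinuousConstSMul A X)
    (_ : FaithfulSMul A X), ∀ (a : A) (h : H) (x : X), a • h • x = h • a • x

theorem admits_of (G : Type) [Group G] (H : Subgroup G) [H.FiniteIndex]
    (h : Pool.Agent.H60.SM.HasSyndeticSubmeasure H) : Admits G := by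
  obtain ⟨μ, h1, h2, h3, h4, h5, h6, h7⟩ := Pool.Agent.H60.SM.of_finiteIndex G H h
  refine ⟨μ, h1, h2, h3, h4, h5, h6, fun A hA ε hε => h7 A hA ε ?_⟩
  exact lt_of_le_of_lt (by positivity) hε

/-- A group `G` (of any cardinality) admits a left-invariant syndetic submeasure as soon as it has
a subgroup `H` of finite index which acts minimally on a nonempty compact Hausdorff space `X` such
that an infinite group acts faithfully on `X` by homeomorphisms commuting with `H`. -/
theorem result :
    ∀ (G : Type) [Group G] (H : Subgroup G) [H.FiniteIndex],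
      SymmetricFlow H → Admits G := by
  intro G _ H _ h
  refine admits_of G H ?_
  obtain ⟨X, A, _, _, _, _, _, _, _, _, _, _, _, _, hcomm⟩ := h
  exact Pool.Agent.H60.SM.minimal_flow H X A hcomm

end Pool.Agent.Results.MP_e6747d_al.CommutingSymmetries
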