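import Mathlib
import Pool.Agent.H60.SM.Hyp2

/-!
MP_e6747d_al (left-invariant syndetic submeasures on arbitrary groups).
Isometric actions on Gromov hyperbolic spaces with a loxodromic element.
-/

set_option autoImplicit false

namespace Pool.Agent.Results.MP_e6747d_al.HyperbolicIsometries

/-- `G` admits a left-invariant syndetic submeasure (the conclusion of the frozen statement). -/
def Admits (G : Type) [Group G] : Prop :=
  ∃ μ : Set G → ℝ,
    (∀ A : Set G, 0 ≤ μ A ∧ μ A ≤ 1) ∧
    μ ∅ = 0 ∧ μ Set.univ = 1 ∧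
    (∀ A B : Set G, A ⊆ B → μ A ≤ μ B) ∧
    (∀ A B : Set G, μ (A ∪ B) ≤ μ A + μ B) ∧
    (∀ (x : G) (A : Set G), μ ((fun y => x * y) '' A) = μ A) ∧
    (∀ A : Set G, μ A < 1 → ∀ ε : ℝ, 1 / (Nat.card G : ℝ) < ε →
      ∃ B ⊆ Aᶜ, μ B < ε ∧
        ∃ F : Finset G, ∀ g : G, ∃ f ∈ F, ∃ b ∈ B, g = f * b)

/-- `H` acts by isometries on a Gromov hyperbolic pseudometric space `S` (four-point condition with
some constant `δ`) with a loxodromic element `g`: `d(x, gᵐ x)` grows at least linearly in `m`. -/
def LoxodromicElement (H : Type) [Group H] : Prop :=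
  ∃ (S : Type) (_ : PseudoMetricSpace S) (_ : MulAction H S),
    (∀ (k : H) (x y : S), dist (k • x) (k • y) = dist x y) ∧
    (∃ δ : ℝ, ∀ x y z w : S, dist x y + dist z w ≤
      max (dist x z + dist y w) (dist x w + dist y z) + δ) ∧
    ∃ (x : S) (g : H) (c C : ℝ), 0 < c ∧ ∀ m : ℕ, c * m ≤ dist x (g ^ m • x) + C

/-- A group `G` (of any cardinality) admits a left-invariant syndetic submeasure as soon as it has
a subgroup `H` of finite index which acts by isometries on a Gromov hyperbolic space with a
loxodromic element. -/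
theorem result :
    ∀ (G : Type) [Group G] (H : Subgroup G) [H.FiniteIndex],
      LoxodromicElement H → Admits G := by
  intro G _ H _ h
  obtain ⟨S, _, _, hiso, ⟨δ, h4⟩, x, g, c, C, hc, hgrow⟩ := h
  have h4' : ∀ x y z w : S, dist x y + dist z w ≤
      max (dist x z + dist y w) (dist x w + dist y z) + max δ 0 := fun x y z w =>
    (h4 x y z w).trans (by gcongr; exact le_max_left _ _)
  have hgrow' : ∀ m : ℕ, c * m - C ≤ dist x (g ^ m • x) := fun m => by linarith [hgrow m]
  have hinf : Infinite H := by
    by_contra hfin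
    rw [not_infinite_iff_finite] at hfin
    have hn : 0 < orderOf g := orderOf_pos g
    have h1 : ∀ m : ℕ, (c * orderOf g) * m ≤ C := by
      intro m
      have h2 := hgrow (orderOf g * m)
      rw [pow_mul, pow_orderOf_eq_one, one_pow, one_smul, dist_self] at h2
      push_cast at h2
      linarith
    have h3 := Pool.Agent.H60.SM.Hyp.arch h1
    have h4 : 0 < c * orderOf g := mul_pos hc (by exact_mod_cast hn)
    linarith
  exact Pool.Agent.SyndeticSub.of_finiteIndex H (Pool.Agent.SyndeticSub.of_spread
    (Pool.Agent.H60.SM.Hyp.spread_of_hyp hiso (max δ 0) (le_max_right _ _) h4' x g c C hc hgrow'))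

end Pool.Agent.Results.MP_e6747d_al.HyperbolicIsometries
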