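import Mathlib
import Pool.Agent.H60.SM.Core
import Pool.Agent.H60.SM.Linear
import Pool.Agent.H60.SM.Virtual
import Pool.Agent.H60.SM.Quot
import Pool.Agent.H60.SM.HW
import Pool.Agent.H60.SM.Irr

/-!
MP_e6747d_al (left-invariant syndetic submeasures on arbitrary groups).
Linear groups: uncountable absolutely irreducible images in `SL₂(K)`, `PSL_n(K)` for uncountable
fields `K`, groups with a one-parameter torus with a unique highest weight over an uncountable field,
and proximal representations over normed fields.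
-/

set_option autoImplicit false
open Topology Pointwise

namespace Pool.Agent.Results.MP_e6747d_al.LinearGroups

/-- `G` admits a left-invariant syndetic submeasure (the conclusion of the frozen statement). -/
def Admits (G : Type) [Group G] : Prop :=
  ∃ μ : Set G → ℝ,
    (∀ A : Set G, 0 ≤ μ A ∧ μ A ≤ 1) ∧
    μ ∅ = 0 ∧ μ Set.univ = 1 ∧
    (∀ A B : Set G, A ⊆ B → μ A ≤ μ B) ∧
    (∀ A B : Set G, μ (A ∪ B) ≤ μ A + μ B) ∧
    (∀ (x : G) (A : Set G), μ ((fun y => x * y) '' A) = μ A) ∧
    (∀ A : Set G, μ A < 1 → ∀ ε : ℝ, 1 / (Nat.card G : ℝ) < ε →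
      ∃ B ⊆ Aᶜ, μ B < ε ∧
        ∃ F : Finset G, ∀ g : G, ∃ f ∈ F, ∃ b ∈ B, g = f * b)

/-- `a⁻ᵐ gᵐ` tends to `0` in norm on the kernel of `φ`. -/
def ContractsKer {H K E : Type} [Group H] [NontriviallyNormedField K] [NormedAddCommGroup E]
    [NormedSpace K E] (ρ : H →* (E →L[K] E)) (g : H) (φ : E →L[K] K) (a : K) : Prop :=
  ∀ ε : ℝ, 0 < ε → ∃ N : ℕ, ∀ m ≥ N, ∀ w, φ w = 0 → ‖ρ (g ^ m) w‖ ≤ ε * ‖a‖ ^ m * ‖w‖

/-- finitely many translates of `φ` bound the norm from above. -/
def Norming {H K E : Type} [Group H] [NontriviallyNormedField K] [NormedAddCommGroup E]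
    [NormedSpace K E] (ρ : H →* (E →L[K] E)) (φ : E →L[K] K) : Prop :=
  ∃ δ : ℝ, 0 < δ ∧ ∃ I : Finset H, ∀ w, ∃ k ∈ I, δ * ‖w‖ ≤ ‖φ (ρ k w)‖

/-- `H` acts by bounded linear maps on a normed space `E` over a nontrivially normed field `K`
with a proximal element `g`: `g v = a v` with `|a| > 1`, and a bounded functional `φ` with
`φ v = 1` such that `a⁻ᵐ gᵐ` tends to `0` on the kernel of `φ` and finitely many translates of
`φ` bound the norm. -/
def ProximalRepresentation (H : Type) [Group H] : Prop :=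
  ∃ (K E : Type) (_ : NontriviallyNormedField K) (_ : NormedAddCommGroup E)
    (_ : NormedSpace K E) (ρ : H →* (E →L[K] E)) (g : H) (v : E) (φ : E →L[K] K) (a : K),
    1 < ‖a‖ ∧ ρ g v = a • v ∧ φ v = 1 ∧ ContractsKer ρ g φ a ∧ Norming ρ φ

/-- `H` has a homomorphism onto `PSL_n(K)` for some `n ≥ 2` and some uncountable field `K`. -/
def OntoPSL (H : Type) [Group H] : Prop :=
  ∃ (K : Type) (_ : Field K) (_ : Uncountable K) (n : ℕ)
    (π : H →* Matrix.ProjectiveSpecialLinearGroup (Fin (n + 2)) K), Function.Surjective π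

/-- `H` has a matrix representation over an uncountable field `K` whose image contains a
one-parameter torus `diag(b ^ m 0, …, b ^ m n)`, `b ∈ Kˣ`, with a unique highest weight
`m 0 ≠ 0`, and for every vector `u ≠ 0` some `k` in `H` is such that the `0`-th coordinate of
`k u` is not zero (this holds if the representation is irreducible). -/
def HighestWeight (H : Type) [Group H] : Prop :=
  ∃ (K : Type) (_ : Field K) (_ : Uncountable K) (n : ℕ)
    (π : H →* Matrix.GeneralLinearGroup (Fin (n + 1)) K) (m : Fin (n + 1) → ℤ),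
    m 0 ≠ 0 ∧ (∀ i, i ≠ 0 → m i < m 0) ∧
    (∀ b : K, b ≠ 0 → ∃ g : H, (π g : Matrix (Fin (n + 1)) (Fin (n + 1)) K) =
      Matrix.diagonal (fun i => b ^ m i)) ∧
    ∀ u : Fin (n + 1) → K, u ≠ 0 → ∃ k : H,
      (π k : Matrix (Fin (n + 1)) (Fin (n + 1)) K).mulVec u 0 ≠ 0

/-- `H` has a homomorphism into `SL₂(K)`, `K` a field, whose image has a trace which is not integral
over `ℤ`, or is uncountable and spans the algebra of all `2 × 2` matrices (absolutely
irreducible). -/
def DegreeTwo (H : Type) [Group H] : Prop :=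
  ∃ (K : Type) (_ : Field K) (ρ : H →* Matrix.SpecialLinearGroup (Fin 2) K),
    (∃ g : H, ¬ IsIntegral ℤ (Matrix.trace (ρ g : Matrix (Fin 2) (Fin 2) K))) ∨
    (¬ (Set.range ρ).Countable ∧ Submodule.span K (Set.range
      (fun g : H => (ρ g : Matrix (Fin 2) (Fin 2) K))) = ⊤)

theorem admits_of (G : Type) [Group G] (H : Subgroup G) [H.FiniteIndex]
    (h : Pool.Agent.H60.SM.HasSyndeticSubmeasure H) : Admits G := by
  obtain ⟨μ, h1, h2, h3, h4, h5, h6, h7⟩ := Pool.Agent.H60.SM.of_finiteIndex G H h
  refine ⟨μ, h1, h2, h3, h4, h5, h6, fun A hA ε hε => h7 A hA ε ?_⟩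
  exact lt_of_le_of_lt (by positivity) hε

/-- A group `G` (of any cardinality) admits a left-invariant syndetic submeasure as soon as it has
a subgroup `H` of finite index which has a homomorphism into some `SL₂(K)` with a non-integral trace
or with uncountable absolutely irreducible image, or maps onto some `PSL_n(K)`, `n ≥ 2`, `K` an uncountable field, or
has a representation over an uncountable field `K` whose image contains a one-parameter torus with a
unique highest weight and moves every nonzero vector out of the hyperplane of the lower weights, or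
has a proximal representation over a normed field. -/
theorem result :
    ∀ (G : Type) [Group G] (H : Subgroup G) [H.FiniteIndex],
      DegreeTwo H ∨ OntoPSL H ∨ HighestWeight H ∨ ProximalRepresentation H → Admits G := by
  intro G _ H _ h
  rcases h with h | h
  · obtain ⟨K, _, ρ, h⟩ := h
    obtain ⟨g, hg⟩ : ∃ g : H, ¬ IsIntegral ℤ (Matrix.trace (ρ g : Matrix (Fin 2) (Fin 2) K)) := by
      rcases h with h | ⟨h1, h2⟩
      · exact h
      · exact Pool.Agent.H60.SM.SL2.exists_trace ρ h1 h2
    haveI : Infinite H := Pool.Agent.H60.SM.SL2.infinite_of_trace ρ g hg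
    exact Pool.Agent.SyndeticSub.of_finiteIndex H (Pool.Agent.SyndeticSub.of_spread
      (Pool.Agent.H60.SM.SL2.spread_of_trace ρ g hg))
  refine admits_of G H ?_
  rcases h with h | h | h
  · obtain ⟨K, _, _, n, π, hπ⟩ := h
    exact Pool.Agent.H60.SM.psl_uncountable H K n π hπ
  · obtain ⟨K, _, _, n, π, m, hm0, hm, htorus, hnd⟩ := h
    exact Pool.Agent.H60.SM.HW.hw H K n π m hm0 hm htorus hnd
  · obtain ⟨K, E, _, _, _, ρ, g, v, φ, a, ha, hv, hφv, hε, hk⟩ := h
    exact Pool.Agent.H60.SM.linear ρ g v φ a ha hv hφv hε hk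

end Pool.Agent.Results.MP_e6747d_al.LinearGroups
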